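import Mathlib
import Pool.Agent.R135.TropCells

/-!
# MP_b8ee47_co: every tropical polynomial is rationally factorizable
-/

set_option autoImplicit false

namespace Pool.Agent.Results.MP_b8ee47_co.RationallyFactorizable

open Pool.Agent.R135.TropCells

variable {n : ℕ}

/-- `f` is a tropical polynomial in `n` variables: `f(x) = max_{a ∈ A} (c_a + a · x)` for some finite
nonempty set `A` of exponents and real coefficients `c`. -/
def IsTropPoly (f : (Fin n → ℝ) → ℝ) : Prop :=
  ∃ (A : Finset (Fin n → ℕ)) (hA : A.Nonempty) (c : (Fin n → ℕ) → ℝ), ∀ x, f x = trop A hA c x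

/-- The Newton polytope `conv(A)`. -/
def newt (A : Finset (Fin n → ℕ)) : Set (Fin n → ℝ) :=
  convexHull ℝ ((fun a => fun i => (a i : ℝ)) '' (A : Set (Fin n → ℕ)))

/-- The cell of the regular subdivision `Δ_f` selected by `y`: the convex hull of the exponents `a`
for which `c_a + a · y` is maximal (that is, `-c_a - a · y` is minimal, a lower face of
`conv {(a, -c_a)}`). -/
def cell (A : Finset (Fin n → ℕ)) (hA : A.Nonempty) (c : (Fin n → ℕ) → ℝ) (y : Fin n → ℝ) :
    Set (Fin n → ℝ) :=
  convexHull ℝ ((fun a => fun i => (a i : ℝ)) ''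
    {a : Fin n → ℕ | a ∈ A ∧ c a + ∑ i, (a i : ℝ) * y i = trop A hA c y})

/-- `f` is a unit: a tropical polynomial whose regular subdivision is trivial, i.e. the Newton
polytope itself is a cell. -/
def IsTropUnit (f : (Fin n → ℝ) → ℝ) : Prop :=
  ∃ (A : Finset (Fin n → ℕ)) (hA : A.Nonempty) (c : (Fin n → ℕ) → ℝ),
    (∀ x, f x = trop A hA c x) ∧ ∃ y, cell A hA c y = newt A

/-- `g` is a finite (nonempty) tropical product of units. -/
def IsProductOfUnits (g : (Fin n → ℝ) → ℝ) : Prop :=
  ∃ l : List ((Fin n → ℝ) → ℝ), l ≠ [] ∧ (∀ u ∈ l, IsTropUnit u) ∧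
    ∀ x, g x = (l.map (fun u => u x)).sum

/-- `f` is rationally factorizable: `f ⊙ g = h` for two finite tropical products of units. -/
def IsRationallyFactorizable (f : (Fin n → ℝ) → ℝ) : Prop :=
  ∃ g h : (Fin n → ℝ) → ℝ, IsProductOfUnits g ∧ IsProductOfUnits h ∧ ∀ x, f x + g x = h x

/-- the zero function is a unit -/
theorem zero_unit : IsTropUnit (fun _ : Fin n → ℝ => (0 : ℝ)) := by
  refine ⟨{0}, Finset.singleton_nonempty _, fun _ => 0, ?_, 0, ?_⟩
  · intro x
    simp [trop, aff]
  · unfold cell newt
    congr 2
    ext a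
    simp [trop, aff]

/-- intersections of cells give units -/
theorem inter_unit (A : Finset (Fin n → ℕ)) (hA : A.Nonempty) (c : (Fin n → ℕ) → ℝ)
    (S : Finset (Finset (Fin n → ℕ))) (hS : S ⊆ cells A hA c) (hne : S.Nonempty)
    (hB : (inter A S).Nonempty) : IsTropUnit (val c (inter A S)) := by
  classical
  obtain ⟨C, hC⟩ := hne
  have hcell := hS hC
  rw [cells, Finset.mem_filter] at hcell
  obtain ⟨_, y, hy⟩ := hcell
  refine ⟨inter A S, hB, c, fun x => by rw [val, dif_pos hB], y, ?_⟩
  have hval : ∀ a ∈ inter A S, aff c a y = trop A hA c y := by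
    intro a ha
    rw [inter, Finset.mem_filter] at ha
    have := ha.2 C hC
    rw [← hy, mem_cell] at this
    exact this.2
  have htrop : trop (inter A S) hB c y = trop A hA c y := by
    unfold trop
    apply le_antisymm
    · apply Finset.sup'_le
      intro a ha
      exact (hval a ha).le
    · obtain ⟨a, ha⟩ := hB
      have h1 := hval a ha
      unfold trop at h1
      rw [← h1]
      exact Finset.le_sup' (fun a => aff c a y) ha
  unfold cell newt
  congr 2
  ext a
  rw [Set.mem_ofPred_eq, Finset.mem_coe, htrop]
  exact ⟨fun h => h.1, fun h => ⟨h, hval a h⟩⟩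

/-- **Main theorem.** For every `n`, every tropical polynomial in `n` variables is rationally
factorizable. -/
theorem result (n : ℕ) (f : (Fin n → ℝ) → ℝ) (hf : IsTropPoly f) :
    IsRationallyFactorizable f := by
  classical
  obtain ⟨A, hA, c, hfc⟩ := hf
  set P := (cells A hA c).powerset with hP
  set E := P.filter (fun S => (S.Nonempty ∧ Even S.card) ∧ (inter A S).Nonempty) with hE
  set O := P.filter (fun S => ¬ Even S.card ∧ (inter A S).Nonempty) with hO
  refine ⟨fun x => ∑ S ∈ E, val c (inter A S) x, fun x => ∑ S ∈ O, val c (inter A S) x, ?_, ?_, ?_⟩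
  · refine ⟨(fun _ => 0) :: (E.toList.map (fun S => val c (inter A S))), List.cons_ne_nil _ _,
      ?_, ?_⟩
    · intro u hu
      rw [List.mem_cons] at hu
      rcases hu with rfl | hu
      · exact zero_unit
      · rw [List.mem_map] at hu
        obtain ⟨S, hS, rfl⟩ := hu
        rw [Finset.mem_toList, hE, Finset.mem_filter, hP, Finset.mem_powerset] at hS
        exact inter_unit A hA c S hS.1 hS.2.1.1 hS.2.2
    · intro x
      rw [List.map_cons, List.sum_cons, zero_add, List.map_map]
      exact (Finset.sum_map_toList E (fun S => val c (inter A S) x)).symm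
  · refine ⟨(fun _ => 0) :: (O.toList.map (fun S => val c (inter A S))), List.cons_ne_nil _ _,
      ?_, ?_⟩
    · intro u hu
      rw [List.mem_cons] at hu
      rcases hu with rfl | hu
      · exact zero_unit
      · rw [List.mem_map] at hu
        obtain ⟨S, hS, rfl⟩ := hu
        rw [Finset.mem_toList, hO, Finset.mem_filter, hP, Finset.mem_powerset] at hS
        refine inter_unit A hA c S hS.1 ?_ hS.2.2
        rw [Finset.nonempty_iff_ne_empty]
        rintro rfl
        exact hS.2.1 (by simp)
    · intro x
      rw [List.map_cons, List.sum_cons, zero_add, List.map_map]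
      exact (Finset.sum_map_toList O (fun S => val c (inter A S) x)).symm
  · intro x
    have h := trop_relation A hA c x
    rw [← hP] at h
    -- split off the empty set and separate by parity
    have key : ∑ S ∈ P, (-1 : ℝ) ^ S.card * val c (inter A S) x =
        f x + ∑ S ∈ E, val c (inter A S) x - ∑ S ∈ O, val c (inter A S) x := by
      have h1 : f x = ∑ S ∈ P, if S = ∅ then val c (inter A S) x else 0 := by
        rw [Finset.sum_ite_eq' P ∅, if_pos (Finset.empty_mem_powerset _), inter_empty, val,
          dif_pos hA, hfc]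
      rw [h1, hE, hO, Finset.sum_filter, Finset.sum_filter, ← Finset.sum_add_distrib,
        ← Finset.sum_sub_distrib]
      apply Finset.sum_congr rfl
      intro S _
      by_cases h0 : S = ∅
      · subst h0
        simp
      · have hne : S.Nonempty := Finset.nonempty_iff_ne_empty.mpr h0
        by_cases hB : (inter A S).Nonempty
        · by_cases hev : Even S.card
          · rw [hev.neg_one_pow]
            simp [h0, hne, hB, hev]
          · have hodd : Odd S.card := Nat.not_even_iff_odd.mp hev
            rw [hodd.neg_one_pow]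
            simp [h0, hB, hev]
        · have hv : val c (inter A S) x = 0 := by rw [val, dif_neg hB]
          simp [h0, hB, hv]
    rw [key] at h
    linarith

end Pool.Agent.Results.MP_b8ee47_co.RationallyFactorizable
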